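import Mathlib
import Pool.Agent.helper4.LRK.Fejer

set_option autoImplicit false

/-! Module A of MP_0ec205_nt (helper30): the archimedean part. -/

noncomputable section

namespace Pool.Agent.helper64.LRA

open MeasureTheory Set
open Pool.Agent.helper4.LRK

variable {gg : ℝ → ℝ} {C0 : ℝ}

/-- the Gaussian weight -/
def w (H t : ℝ) : ℝ := Real.exp (-(t ^ 2 / H ^ 2))

lemma w_continuous (H : ℝ) : Continuous (w H) := by unfold w; fun_prop

lemma w_pos (H t : ℝ) : 0 < w H t := Real.exp_pos _

lemma w_le_one (H t : ℝ) : w H t ≤ 1 := by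
  unfold w
  rw [Real.exp_le_one_iff]
  have : 0 ≤ t ^ 2 / H ^ 2 := by positivity
  linarith

lemma w_gg_integrable (hgc : Continuous gg) (hg : ∀ t, |gg t - Real.log (|t| + 1)| ≤ C0)
    {H : ℝ} (hH : 0 < H) : Integrable fun t => w H t * gg t := by
  have hb : 0 < 1 / H ^ 2 := by positivity
  have h1 : Integrable fun t : ℝ => |t * Real.exp (-(1 / H ^ 2) * t ^ 2)| :=
    (integrable_mul_exp_neg_mul_sq hb).abs
  have h2 : Integrable fun t : ℝ => C0 * Real.exp (-(1 / H ^ 2) * t ^ 2) :=
    (integrable_exp_neg_mul_sq hb).const_mul _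
  refine (h1.add h2).mono' ((w_continuous H).mul hgc).aestronglyMeasurable
    (Filter.Eventually.of_forall fun t => ?_)
  have hw : Real.exp (-(1 / H ^ 2) * t ^ 2) = w H t := by
    unfold w; congr 1; ring
  simp only [Pi.add_apply, hw, abs_mul, Real.norm_eq_abs, abs_of_pos (w_pos H t)]
  have h3 : |gg t| ≤ |t| + C0 := by
    have h4 := hg t
    have h5 : 0 ≤ Real.log (|t| + 1) := Real.log_nonneg (by linarith [abs_nonneg t])
    have h6 : Real.log (|t| + 1) ≤ |t| := by
      have := Real.log_le_sub_one_of_pos (by linarith [abs_nonneg t] : 0 < |t| + 1)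
      linarith
    have h7 := abs_le.1 h4
    rw [abs_le]
    constructor <;> linarith [abs_nonneg t, h7.1, h7.2]
  nlinarith [w_pos H t]

lemma w_gg_le (hg : ∀ t, |gg t - Real.log (|t| + 1)| ≤ C0) {H : ℝ} (hH : 1 ≤ H) (t : ℝ) :
    w H t * gg t ≤ Real.log H + (1 + |C0|) := by
  have hH0 : 0 < H := by linarith
  have hlH : 0 ≤ Real.log H := Real.log_nonneg hH
  set u := |t| / H with hu
  have hu0 : 0 ≤ u := by positivity
  have h1 : Real.log (|t| + 1) ≤ Real.log H + u := by
    have h2 : |t| + 1 ≤ H * (1 + u) := by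
      have : H * u = |t| := by rw [hu]; field_simp
      nlinarith
    have h3 := Real.log_le_log (by positivity) h2
    rw [Real.log_mul hH0.ne' (by positivity)] at h3
    have h4 := Real.log_le_sub_one_of_pos (by positivity : 0 < 1 + u)
    linarith
  have h5 : gg t ≤ Real.log H + u + |C0| := by
    have := (abs_le.1 (hg t)).2
    linarith [le_abs_self C0]
  have h6 : w H t * u ≤ 1 := by
    have h7 : w H t = Real.exp (-(u ^ 2)) := by
      unfold w; congr 1; rw [hu, div_pow, sq_abs]
    have h8 : 1 + u ^ 2 ≤ Real.exp (u ^ 2) := by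
      have := Real.add_one_le_exp (u ^ 2); linarith
    rw [h7, Real.exp_neg, inv_mul_le_iff₀ (Real.exp_pos _), mul_one]
    nlinarith [sq_nonneg (u - 1)]
  have h9 := w_le_one H t
  have h10 := w_pos H t
  have h11 : w H t * gg t ≤ w H t * (Real.log H + u + |C0|) := mul_le_mul_of_nonneg_left h5 h10.le
  have h12 : w H t * (Real.log H + |C0|) ≤ Real.log H + |C0| := by
    have : 0 ≤ Real.log H + |C0| := by positivity
    nlinarith
  nlinarith

lemma inner (X s t : ℝ) (hX : 0 < X) :
    ∫ x in (-X)..X, (1 - |x| / X) * Real.cos (x * s) * Real.cos (x * t) =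
      X * ((fej X (s - t) + fej X (s + t)) / 2) := by
  unfold fej
  have h1 : ∀ x : ℝ, (1 - |x| / X) * Real.cos (x * s) * Real.cos (x * t) =
      1 / 2 * ((1 - |x| / X) * Real.cos (x * (s - t)) + (1 - |x| / X) * Real.cos (x * (s + t))) := by
    intro x
    rw [mul_sub x s t, mul_add x s t, Real.cos_sub, Real.cos_add]
    ring
  simp_rw [h1]
  rw [intervalIntegral.integral_const_mul, intervalIntegral.integral_add
    (Continuous.intervalIntegrable (by fun_prop) _ _)
    (Continuous.intervalIntegrable (by fun_prop) _ _)]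
  generalize (∫ x in (-X)..X, (1 - |x| / X) * Real.cos (x * (s - t))) = A
  generalize (∫ x in (-X)..X, (1 - |x| / X) * Real.cos (x * (s + t))) = B'
  field_simp

lemma fubini (hgc : Continuous gg) (hg : ∀ t, |gg t - Real.log (|t| + 1)| ≤ C0)
    {H X : ℝ} (hH : 0 < H) (hX : 0 < X) (s : ℝ) :
    ∫ x in (-X)..X, (1 - |x| / X) * Real.cos (x * s) *
        (∫ t : ℝ, Real.exp (-(t ^ 2 / H ^ 2)) * Real.cos (x * t) * gg t) =
      ∫ t : ℝ, (w H t * gg t) * (X * ((fej X (s - t) + fej X (s + t)) / 2)) := by
  rw [intervalIntegral.integral_of_le (by linarith)]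
  have h1 : ∀ x : ℝ, (1 - |x| / X) * Real.cos (x * s) *
        (∫ t : ℝ, Real.exp (-(t ^ 2 / H ^ 2)) * Real.cos (x * t) * gg t) =
      ∫ t : ℝ, (1 - |x| / X) * Real.cos (x * s) * Real.cos (x * t) * (w H t * gg t) := by
    intro x
    rw [← integral_const_mul]
    apply integral_congr_ae
    refine Filter.Eventually.of_forall fun t => ?_
    simp only [w]
    ring
  simp_rw [h1]
  rw [integral_integral_swap]
  · apply integral_congr_ae
    refine Filter.Eventually.of_forall fun t => ?_
    simp only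
    rw [integral_mul_const, ← intervalIntegral.integral_of_le (by linarith), inner X s t hX]
    ring
  · have hA : Integrable (fun x : ℝ => |1 - |x| / X|) (volume.restrict (Ioc (-X) X)) := by
      have : Continuous fun x : ℝ => |1 - |x| / X| := by fun_prop
      exact (this.integrableOn_Icc).mono_set Ioc_subset_Icc_self
    have hB : Integrable fun t => |w H t * gg t| := (w_gg_integrable hgc hg hH).abs
    refine (hA.mul_prod hB).mono' ?_ (Filter.Eventually.of_forall fun z => ?_)
    · have hc : Continuous (Function.uncurry fun x t : ℝ =>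
          (1 - |x| / X) * Real.cos (x * s) * Real.cos (x * t) * (w H t * gg t)) := by
        have := w_continuous H
        simp only [Function.uncurry_def]
        fun_prop
      exact hc.aestronglyMeasurable
    · simp only [Function.uncurry_def, Real.norm_eq_abs, abs_mul]
      have c1 := Real.abs_cos_le_one (z.1 * s)
      have c2 := Real.abs_cos_le_one (z.1 * z.2)
      have c3 : |Real.cos (z.1 * s)| * |Real.cos (z.1 * z.2)| ≤ 1 :=
        mul_le_one₀ c1 (abs_nonneg _) c2
      have a1 := abs_nonneg (1 - |z.1| / X)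
      have a2 : 0 ≤ |w H z.2| * |gg z.2| := by positivity
      calc |1 - |z.1| / X| * |Real.cos (z.1 * s)| * |Real.cos (z.1 * z.2)| *
            (|w H z.2| * |gg z.2|) = (|1 - |z.1| / X| * (|w H z.2| * |gg z.2|)) *
            (|Real.cos (z.1 * s)| * |Real.cos (z.1 * z.2)|) := by ring
        _ ≤ (|1 - |z.1| / X| * (|w H z.2| * |gg z.2|)) * 1 :=
            mul_le_mul_of_nonneg_left c3 (by positivity)
        _ = _ := by ring

end Pool.Agent.helper64.LRA

namespace Pool.Agent.helper30.LR

open MeasureTheory Set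
open Pool.Agent.helper4.LRK Pool.Agent.helper64.LRA

theorem arch_bound (gg : ℝ → ℝ) (hgc : Continuous gg) {C0 : ℝ}
    (hg : ∀ t, |gg t - Real.log (|t| + 1)| ≤ C0) :
    ∃ C : ℝ, ∀ H : ℝ, 1 ≤ H → ∀ X : ℝ, 0 < X → ∀ s : ℝ,
      ∫ x in (-X)..X, (1 - |x| / X) * Real.cos (x * s) *
        (∫ t : ℝ, Real.exp (-(t ^ 2 / H ^ 2)) * Real.cos (x * t) * gg t) ≤
      2 * Real.pi * (Real.log H + C) := by
  refine ⟨1 + |C0|, fun H hH X hX s => ?_⟩
  rw [fubini hgc hg (by linarith : (0:ℝ) < H) hX s]
  set K := Real.log H + (1 + |C0|) with hK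
  have hi1 : Integrable fun t : ℝ => fej X (s - t) := (fej_integrable hX).comp_sub_left s
  have hi2 : Integrable fun t : ℝ => fej X (s + t) := (fej_integrable hX).comp_add_left s
  have hi3 : Integrable fun t : ℝ => K * (X * ((fej X (s - t) + fej X (s + t)) / 2)) :=
    (((hi1.add hi2).div_const 2).const_mul X).const_mul K
  have hcont : Continuous fun t : ℝ => X * ((fej X (s - t) + fej X (s + t)) / 2) := by
    have := fej_continuous hX
    fun_prop
  have hfej : ∀ t, 0 ≤ X * ((fej X (s - t) + fej X (s + t)) / 2) := fun t => by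
    have h1 := fej_nonneg hX (s - t)
    have h2 := fej_nonneg hX (s + t)
    positivity
  have hbd : ∀ s, fej X s ≤ 5 := fun s => by
    refine (fej_le hX s).trans ?_
    have h1 : (1 : ℝ) ≤ 1 + (X * s) ^ 2 := by nlinarith [sq_nonneg (X * s)]
    have h2 : (1 + (X * s) ^ 2)⁻¹ ≤ 1 := inv_le_one_of_one_le₀ h1
    linarith
  have hi4 : Integrable fun t : ℝ => (w H t * gg t) *
      (X * ((fej X (s - t) + fej X (s + t)) / 2)) := by
    refine (w_gg_integrable hgc hg (by linarith : (0:ℝ) < H)).mul_bdd (c := X * 5)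
      hcont.aestronglyMeasurable (Filter.Eventually.of_forall fun t => ?_)
    rw [Real.norm_of_nonneg (hfej t)]
    apply mul_le_mul_of_nonneg_left _ hX.le
    linarith [hbd (s - t), hbd (s + t)]
  have hle : ∫ t : ℝ, (w H t * gg t) * (X * ((fej X (s - t) + fej X (s + t)) / 2)) ≤
      ∫ t : ℝ, K * (X * ((fej X (s - t) + fej X (s + t)) / 2)) :=
    integral_mono hi4 hi3 fun t => mul_le_mul_of_nonneg_right (w_gg_le hg hH t) (hfej t)
  refine hle.trans (le_of_eq ?_)
  rw [integral_const_mul, integral_const_mul, integral_div, integral_add hi1 hi2,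
    integral_sub_left_eq_self (fun t => fej X t) volume s, integral_add_left_eq_self
      (fun t => fej X t) s, fej_integral hX]
  field_simp
  ring

end Pool.Agent.helper30.LR
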